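import Pool.Agent.EVF.StmtsF

set_option autoImplicit false

/-!
# EVF, row CARD: the box is finite, and its size
-/

namespace Pool.Agent.EVF.H19

open MvPolynomial Pool.Agent.EVF

theorem box_eq {k : ℕ} (W : Fin k → ℕ) (B : ℕ) :
    Box W B = ((Fintype.piFinset fun l => Finset.Icc (-((B : ℤ) ^ W l)) ((B : ℤ) ^ W l) :
      Finset (Fin k → ℤ)) : Set (Fin k → ℤ)) := by
  ext t
  rw [Finset.mem_coe, Fintype.mem_piFinset]
  refine forall_congr' fun l => ?_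
  rw [Finset.mem_Icc, abs_le]

/-- CARD. -/
theorem card : CardStmt := by
  intro k W B
  rw [box_eq]
  refine ⟨Finset.finite_toSet _, fun hB => ?_⟩
  rw [Set.ncard_coe_finset, Fintype.card_piFinset]
  have h1 : ∀ l, ((Finset.Icc (-((B : ℤ) ^ W l)) ((B : ℤ) ^ W l)).card : ℝ) ≤
      3 * (B : ℝ) ^ W l := by
    intro l
    rw [Int.card_Icc]
    have hp : (1 : ℤ) ≤ (B : ℤ) ^ W l := by
      exact_mod_cast Nat.one_le_pow _ _ hB
    have h2 : ((((B : ℤ) ^ W l + 1 - -((B : ℤ) ^ W l)).toNat : ℕ) : ℤ) ≤ 3 * (B : ℤ) ^ W l := by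
      rw [Int.toNat_of_nonneg (by linarith)]
      linarith
    exact_mod_cast h2
  calc ((∏ l, (Finset.Icc (-((B : ℤ) ^ W l)) ((B : ℤ) ^ W l)).card : ℕ) : ℝ)
      = ∏ l, ((Finset.Icc (-((B : ℤ) ^ W l)) ((B : ℤ) ^ W l)).card : ℝ) := by
        rw [Nat.cast_prod]
    _ ≤ ∏ l, 3 * (B : ℝ) ^ W l :=
        Finset.prod_le_prod (fun l _ => Nat.cast_nonneg _) (fun l _ => h1 l)
    _ = 3 ^ k * (B : ℝ) ^ (∑ l, W l) := by
        rw [Finset.prod_mul_distrib, Finset.prod_const, Finset.card_univ, Fintype.card_fin,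
          Finset.prod_pow_eq_pow_sum]

end Pool.Agent.EVF.H19
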